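import Mathlib

/-! Coefficient domains of group rings without zero divisors: base change and places. -/

set_option autoImplicit false

namespace Pool.Agent.Y84.ZD

open MonoidAlgebra

universe u v w

variable {G : Type u} [Group G]

/-- no zero divisors -/
def NZD (D : Type v) [CommRing D] (G : Type u) [Group G] : Prop :=
  ∀ a b : MonoidAlgebra D G, a * b = 0 → a = 0 ∨ b = 0

lemma exists_lift {A : Type v} {B : Type w} [CommRing A] [CommRing B] (φ : A →+* B)
    (x : MonoidAlgebra B G) (h : ∀ g, ∃ a, φ a = x.coeff g) :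
    ∃ y : MonoidAlgebra A G, mapRingHom G φ y = x := by
  classical
  choose f hf using h
  refine ⟨MonoidAlgebra.ofCoeff (Finsupp.onFinset x.coeff.support
    (fun g => if x.coeff g = 0 then 0 else f g) (fun g hg => ?_)), ?_⟩
  · rw [Finsupp.mem_support_iff]
    intro h0
    exact hg (if_pos h0)
  · ext g
    rw [coeff_mapRingHom]
    change φ (if x.coeff g = 0 then 0 else f g) = _
    split_ifs with h0
    · rw [map_zero, h0]
    · exact hf g

lemma map_inj {A : Type v} {B : Type w} [CommRing A] [CommRing B] (φ : A →+* B)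
    (hφ : Function.Injective φ) : Function.Injective (mapRingHom G φ) := by
  intro x y hxy
  ext g
  apply hφ
  rw [← coeff_mapRingHom, ← coeff_mapRingHom, hxy]

lemma NZD.of_inj {A : Type v} {B : Type w} [CommRing A] [CommRing B] (φ : A →+* B)
    (hφ : Function.Injective φ) (h : NZD B G) : NZD A G := by
  intro x y hxy
  have h1 : mapRingHom G φ x * mapRingHom G φ y = 0 := by rw [← map_mul, hxy, map_zero]
  rcases h _ _ h1 with h2 | h2
  · exact Or.inl (map_inj φ hφ (by rw [h2, map_zero]))
  · exact Or.inr (map_inj φ hφ (by rw [h2, map_zero]))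

lemma exists_coeff {A : Type v} [CommRing A] {x : MonoidAlgebra A G} (hx : x ≠ 0) :
    ∃ g, x.coeff g ≠ 0 := by
  by_contra hc
  push Not at hc
  apply hx
  ext g
  rw [hc g]
  rfl

/-- Base change from an algebraically closed field. -/
theorem base (F : Type*) [Field F] {L : Type v} [Field L] [Algebra F L] {K : Type w} [Field K]
    [Algebra F K] [IsAlgClosed K] (h : NZD K G) : NZD L G := by
  classical
  intro x y hxy
  by_contra hc
  push Not at hc
  obtain ⟨g, hg⟩ := exists_coeff hc.1
  obtain ⟨g', hg'⟩ := exists_coeff hc.2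
  let S : Finset L := x.coeff.support.image x.coeff ∪ y.coeff.support.image y.coeff ∪
    {(x.coeff g * y.coeff g')⁻¹}
  let A := Algebra.adjoin F (S : Set L)
  have hxA : ∀ k, x.coeff k ∈ A := by
    intro k
    by_cases h0 : x.coeff k = 0
    · rw [h0]; exact A.zero_mem
    · apply Algebra.subset_adjoin
      have : x.coeff k ∈ S := by
        simp only [S, Finset.mem_union, Finset.mem_image]
        exact Or.inl (Or.inl ⟨k, Finsupp.mem_support_iff.2 h0, rfl⟩)
      exact_mod_cast this
  have hyA : ∀ k, y.coeff k ∈ A := by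
    intro k
    by_cases h0 : y.coeff k = 0
    · rw [h0]; exact A.zero_mem
    · apply Algebra.subset_adjoin
      have : y.coeff k ∈ S := by
        simp only [S, Finset.mem_union, Finset.mem_image]
        exact Or.inl (Or.inr ⟨k, Finsupp.mem_support_iff.2 h0, rfl⟩)
      exact_mod_cast this
  have hi : (x.coeff g * y.coeff g')⁻¹ ∈ A := by
    apply Algebra.subset_adjoin
    have : (x.coeff g * y.coeff g')⁻¹ ∈ S := by
      simp only [S, Finset.mem_union, Finset.mem_singleton, or_true]
    exact_mod_cast this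
  haveI : Algebra.FiniteType F A :=
    (Subalgebra.fg_iff_finiteType _).1 ⟨S, rfl⟩
  obtain ⟨m, hm⟩ := Ideal.exists_maximal A
  letI : Field (A ⧸ m) := Ideal.Quotient.field m
  haveI : Algebra.FiniteType F (A ⧸ m) :=
    Algebra.FiniteType.of_surjective (Ideal.Quotient.mkₐ F m) (Ideal.Quotient.mkₐ_surjective F m)
  haveI : Module.Finite F (A ⧸ m) := finite_of_finite_type_of_isJacobsonRing F (A ⧸ m)
  haveI : Algebra.IsAlgebraic F (A ⧸ m) := Algebra.IsAlgebraic.of_finite F (A ⧸ m)
  let χ : A →+* K := ((IsAlgClosed.lift : (A ⧸ m) →ₐ[F] K) : (A ⧸ m) →+* K).comp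
    (Ideal.Quotient.mk m)
  obtain ⟨x', hx'⟩ := exists_lift (A.val : A →+* L) x (fun k => ⟨(⟨_, hxA k⟩ : A), rfl⟩)
  obtain ⟨y', hy'⟩ := exists_lift (A.val : A →+* L) y (fun k => ⟨(⟨_, hyA k⟩ : A), rfl⟩)
  have h0 : x' * y' = 0 := by
    apply map_inj (A.val : A →+* L) Subtype.val_injective
    rw [map_mul, hx', hy', hxy, map_zero]
  have hgx : ((x'.coeff g : A) : L) = x.coeff g := by rw [← hx', coeff_mapRingHom]; rfl
  have hgy : ((y'.coeff g' : A) : L) = y.coeff g' := by rw [← hy', coeff_mapRingHom]; rfl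
  have hu : x'.coeff g * y'.coeff g' * ⟨_, hi⟩ = 1 := by
    apply Subtype.ext
    change ((x'.coeff g : A) : L) * ((y'.coeff g' : A) : L) * (x.coeff g * y.coeff g')⁻¹ = 1
    rw [hgx, hgy, mul_inv_cancel₀ (mul_ne_zero hg hg')]
  have hu' := congrArg χ hu
  rw [map_mul, map_mul, map_one] at hu'
  have h1 : mapRingHom G χ x' * mapRingHom G χ y' = 0 := by rw [← map_mul, h0, map_zero]
  rcases h _ _ h1 with h2 | h2
  · have h3 : χ (x'.coeff g) = 0 := by rw [← coeff_mapRingHom, h2]; rfl
    rw [h3] at hu'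
    simp at hu'
  · have h3 : χ (y'.coeff g') = 0 := by rw [← coeff_mapRingHom, h2]; rfl
    rw [h3] at hu'
    simp at hu'

/-- scaling with respect to a valuation ring -/
lemma scale {L : Type v} [Field L] (V : ValuationSubring L) {x : MonoidAlgebra L G} (hx : x ≠ 0) :
    ∃ c : L, c ≠ 0 ∧ (∀ k, c * x.coeff k ∈ V) ∧ ∃ g, c * x.coeff g = 1 := by
  classical
  obtain ⟨g0, hg0⟩ := exists_coeff hx
  obtain ⟨g, hg, hmax⟩ := Finset.exists_max_image x.coeff.support
    (fun k => V.valuation (x.coeff k)) ⟨g0, Finsupp.mem_support_iff.2 hg0⟩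
  have hg1 : x.coeff g ≠ 0 := Finsupp.mem_support_iff.1 hg
  refine ⟨(x.coeff g)⁻¹, inv_ne_zero hg1, fun k => ?_, g, inv_mul_cancel₀ hg1⟩
  by_cases h0 : x.coeff k = 0
  · rw [h0, mul_zero]; exact V.zero_mem
  · rw [← V.valuation_le_one_iff, map_mul, map_inv₀]
    have h1 := hmax k (Finsupp.mem_support_iff.2 h0)
    have h2 : V.valuation (x.coeff g) ≠ 0 := (Valuation.ne_zero_iff _).2 hg1
    calc (V.valuation (x.coeff g))⁻¹ * V.valuation (x.coeff k)
        ≤ (V.valuation (x.coeff g))⁻¹ * V.valuation (x.coeff g) := by gcongr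
      _ = 1 := inv_mul_cancel₀ h2

/-- Places: if the group ring over the residue field has no zero divisors, neither has the group ring
over the field. -/
theorem place {L : Type v} [Field L] (V : ValuationSubring L) {K : Type w} [Field K]
    (χ : V →+* K) (h : NZD K G) : NZD L G := by
  intro x y hxy
  by_contra hc
  push Not at hc
  obtain ⟨c, hc0, hcV, g, hg⟩ := scale V hc.1
  obtain ⟨c', hc0', hcV', g', hg'⟩ := scale V hc.2
  obtain ⟨x', hx'⟩ := exists_lift (V.subtype : V →+* L) (c • x)
    (fun k => ⟨(⟨_, hcV k⟩ : V), rfl⟩)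
  obtain ⟨y', hy'⟩ := exists_lift (V.subtype : V →+* L) (c' • y)
    (fun k => ⟨(⟨_, hcV' k⟩ : V), rfl⟩)
  have h0 : x' * y' = 0 := by
    apply map_inj (V.subtype : V →+* L) Subtype.val_injective
    rw [map_mul, hx', hy', smul_mul_assoc, mul_smul_comm, hxy, smul_zero, smul_zero, map_zero]
  have hgx : x'.coeff g = 1 := by
    apply Subtype.ext
    have : ((x'.coeff g : V) : L) = (c • x).coeff g := by rw [← hx', coeff_mapRingHom]; rfl
    rw [this]
    exact hg
  have hgy : y'.coeff g' = 1 := by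
    apply Subtype.ext
    have : ((y'.coeff g' : V) : L) = (c' • y).coeff g' := by rw [← hy', coeff_mapRingHom]; rfl
    rw [this]
    exact hg'
  have h1 : mapRingHom G χ x' * mapRingHom G χ y' = 0 := by rw [← map_mul, h0, map_zero]
  rcases h _ _ h1 with h2 | h2
  · have h3 : χ (x'.coeff g) = 0 := by rw [← coeff_mapRingHom, h2]; rfl
    rw [hgx, map_one] at h3
    exact one_ne_zero h3
  · have h3 : χ (y'.coeff g') = 0 := by rw [← coeff_mapRingHom, h2]; rfl
    rw [hgy, map_one] at h3
    exact one_ne_zero h3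

end Pool.Agent.Y84.ZD
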