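import Pool.Agent.Y84.ZD.A

/-! Coefficient domains of group rings without zero divisors. -/

set_option autoImplicit false

namespace Pool.Agent.Y84.ZD

open MonoidAlgebra

universe u v w

variable {G : Type u} [Group G]

/-- from a prime field to the integers -/
theorem int_of_zmod (p : ℕ) [hp : Fact p.Prime] (h : NZD (ZMod p) G) : NZD ℤ G := by
  classical
  have key : ∀ (N : ℕ) (x : MonoidAlgebra ℤ G) (g : G), x.coeff g ≠ 0 → (x.coeff g).natAbs ≤ N →
      ∃ (k : ℕ) (x' : MonoidAlgebra ℤ G), x = ((p : ℤ) ^ k) • x' ∧ ∃ g', ¬ (p : ℤ) ∣ x'.coeff g' := by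
    intro N
    induction N with
    | zero =>
      intro x g hg hN
      exact absurd (Int.natAbs_eq_zero.1 (Nat.le_zero.1 hN)) hg
    | succ N ih =>
      intro x g hg hN
      by_cases hall : ∀ g', (p : ℤ) ∣ x.coeff g'
      · obtain ⟨x1, hx1⟩ : ∃ x1 : MonoidAlgebra ℤ G, x = (p : ℤ) • x1 := by
          choose f hf using hall
          refine ⟨MonoidAlgebra.ofCoeff (Finsupp.onFinset x.coeff.support
            (fun g => if x.coeff g = 0 then 0 else f g) (fun g hg => ?_)), ?_⟩
          · rw [Finsupp.mem_support_iff]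
            intro h0
            exact hg (if_pos h0)
          · ext g'
            change x.coeff g' = (p : ℤ) * (if x.coeff g' = 0 then 0 else f g')
            split_ifs with h0
            · rw [h0, mul_zero]
            · exact hf g'
        have e : x.coeff g = (p : ℤ) * x1.coeff g := by rw [hx1]; rfl
        have hg1 : x1.coeff g ≠ 0 := by
          intro h0
          rw [h0, mul_zero] at e
          exact hg e
        have hlt : (x1.coeff g).natAbs ≤ N := by
          have e2 : (x.coeff g).natAbs = p * (x1.coeff g).natAbs := by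
            rw [e, Int.natAbs_mul, Int.natAbs_natCast]
          have h3 : 0 < (x1.coeff g).natAbs := Int.natAbs_pos.2 hg1
          have h4 := hp.out.two_le
          have h5 : 2 * (x1.coeff g).natAbs ≤ p * (x1.coeff g).natAbs :=
            Nat.mul_le_mul_right _ h4
          omega
        obtain ⟨k, x', hx', g', hg'⟩ := ih x1 g hg1 hlt
        exact ⟨k + 1, x', by rw [hx1, hx', smul_smul, pow_succ'], g', hg'⟩
      · push Not at hall
        exact ⟨0, x, by rw [pow_zero, one_smul], hall⟩
  intro x y hxy
  by_contra hc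
  push Not at hc
  obtain ⟨g, hg⟩ := exists_coeff hc.1
  obtain ⟨g', hg'⟩ := exists_coeff hc.2
  obtain ⟨k, x', hx, a, ha⟩ := key _ x g hg le_rfl
  obtain ⟨l, y', hy, b, hb⟩ := key _ y g' hg' le_rfl
  have h0 : x' * y' = 0 := by
    have h1 : ((p : ℤ) ^ k * (p : ℤ) ^ l) • (x' * y') = 0 := by
      rw [← hxy, hx, hy, smul_mul_assoc, mul_smul_comm, smul_smul]
    have h2 : ((p : ℤ) ^ k * (p : ℤ) ^ l) ≠ 0 := by
      have := hp.out.ne_zero
      positivity
    ext c
    have h3 : ((p : ℤ) ^ k * (p : ℤ) ^ l) * (x' * y').coeff c = 0 := by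
      have := congrArg (fun z : MonoidAlgebra ℤ G => z.coeff c) h1
      exact this
    rcases mul_eq_zero.1 h3 with h4 | h4
    · exact absurd h4 h2
    · exact h4
  have h1 : mapRingHom G (Int.castRingHom (ZMod p)) x' *
      mapRingHom G (Int.castRingHom (ZMod p)) y' = 0 := by rw [← map_mul, h0, map_zero]
  rcases h _ _ h1 with h2 | h2
  · have h3 : Int.castRingHom (ZMod p) (x'.coeff a) = 0 := by rw [← coeff_mapRingHom, h2]; rfl
    exact ha ((ZMod.intCast_zmod_eq_zero_iff_dvd _ p).1 h3)
  · have h3 : Int.castRingHom (ZMod p) (y'.coeff b) = 0 := by rw [← coeff_mapRingHom, h2]; rfl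
    exact hb ((ZMod.intCast_zmod_eq_zero_iff_dvd _ p).1 h3)

/-- The integers are the weakest coefficient domain. -/
theorem int_of_any (R : Type v) [CommRing R] [IsDomain R] (h : NZD R G) : NZD ℤ G := by
  by_cases hR : CharZero R
  · exact h.of_inj (Int.castRingHom R) (RingHom.injective_int _)
  · obtain ⟨p, hp⟩ := CharP.exists R
    have hp0 : p ≠ 0 := by
      rintro rfl
      exact hR (CharP.charP_to_charZero R)
    have hpp : Fact p.Prime := ⟨(CharP.char_is_prime_or_zero R p).resolve_right hp0⟩
    exact int_of_zmod p (h.of_inj (ZMod.castHom (dvd_refl p) R) (ZMod.castHom_injective R))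

/-- same characteristic -/
theorem same_char {K : Type w} [Field K] [IsAlgClosed K] (h : NZD K G) {D : Type v} [CommRing D]
    [IsDomain D] (p : ℕ) [CharP K p] [CharP D p] : NZD D G := by
  have hi : Function.Injective (algebraMap D (FractionRing D)) :=
    IsFractionRing.injective D (FractionRing D)
  apply NZD.of_inj (algebraMap D (FractionRing D)) hi
  haveI : CharP (FractionRing D) p := charP_of_injective_algebraMap hi p
  rcases CharP.char_is_prime_or_zero K p with hp | hp
  · haveI : Fact p.Prime := ⟨hp⟩
    letI : Algebra (ZMod p) (FractionRing D) := ZMod.algebra _ p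
    letI : Algebra (ZMod p) K := ZMod.algebra _ p
    exact base (ZMod p) h
  · subst hp
    haveI : CharZero K := CharP.charP_to_charZero K
    haveI : CharZero (FractionRing D) := CharP.charP_to_charZero _
    exact base ℚ h

/-- from characteristic `p` to characteristic zero -/
theorem char_zero {K : Type w} [Field K] [IsAlgClosed K] (p : ℕ) [hp : Fact p.Prime] [CharP K p]
    (h : NZD K G) {D : Type v} [CommRing D] [IsDomain D] [CharZero D] : NZD D G := by
  have hi : Function.Injective (algebraMap D (FractionRing D)) :=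
    IsFractionRing.injective D (FractionRing D)
  apply NZD.of_inj (algebraMap D (FractionRing D)) hi
  haveI : CharZero (FractionRing D) := charZero_of_injective_algebraMap hi
  let L := FractionRing D
  -- the valuation ring
  let A : Subring L := (Int.castRingHom L).range
  let a : A := ⟨(p : L), ⟨(p : ℤ), by simp⟩⟩
  have hI : Ideal.span {a} ≠ ⊤ := by
    intro h1
    rw [Ideal.span_singleton_eq_top] at h1
    obtain ⟨⟨b, ⟨z, hz⟩⟩, hb⟩ := isUnit_iff_exists_inv.1 h1
    have h2 : (p : L) * b = 1 := congrArg Subtype.val hb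
    rw [← hz] at h2
    have h3 : ((((p : ℤ) * z : ℤ)) : L) = ((1 : ℤ) : L) := by
      rw [Int.cast_mul, Int.cast_natCast, Int.cast_one]
      exact h2
    have h4 : (p : ℤ) * z = 1 := Int.cast_injective h3
    have h5 : (p : ℤ) ∣ 1 := ⟨z, h4.symm⟩
    have h6 : p ∣ 1 := by exact_mod_cast h5
    exact hp.out.one_lt.ne' (Nat.dvd_one.1 h6)
  obtain ⟨V, -, hV⟩ := Ideal.image_subset_nonunits_valuationSubring _ hI
  have hpV : (p : L) ∈ V.nonunits := hV ⟨a, Ideal.mem_span_singleton_self a, rfl⟩
  let k := IsLocalRing.ResidueField V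
  have hpk : (p : k) = 0 := by
    have h1 : IsLocalRing.residue V (p : V) = 0 := by
      rw [IsLocalRing.residue_eq_zero_iff]
      have h2 := (ValuationSubring.mem_nonunits_iff_exists_mem_maximalIdeal (A := V)).1 hpV
      obtain ⟨h3, h4⟩ := h2
      exact h4
    rw [map_natCast] at h1
    exact h1
  haveI : CharP k p := ringChar.of_eq (CharP.ringChar_of_prime_eq_zero hp.out hpk)
  exact place V (IsLocalRing.residue V) (same_char h p : NZD k G)

end Pool.Agent.Y84.ZD
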