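import Pool.Agent.Y84.ZD.B

/-! From almost all prime fields to characteristic zero. -/

set_option autoImplicit false

namespace Pool.Agent.Y84.ZD

open MonoidAlgebra Polynomial

universe u v w

variable {G : Type u} [Group G]

/-- Schur: a nonconstant integral polynomial has roots modulo primes not dividing `N`. -/
theorem schur (f : ℤ[X]) (hf : 0 < f.natDegree) (N : ℤ) (hN : N ≠ 0) :
    ∃ p : ℕ, p.Prime ∧ ¬ (p : ℤ) ∣ N ∧ ∃ r : ℤ, (p : ℤ) ∣ f.eval r := by
  classical
  have big : ∃ p : ℕ, p.Prime ∧ ¬ (p : ℤ) ∣ N := by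
    obtain ⟨p, hp1, hp2⟩ := Nat.exists_infinite_primes (N.natAbs + 1)
    refine ⟨p, hp2, fun h => ?_⟩
    have h1 : p ∣ N.natAbs := Int.natCast_dvd.1 h
    have h2 := Nat.le_of_dvd (Int.natAbs_pos.2 hN) h1
    omega
  by_cases hc : f.eval 0 = 0
  · obtain ⟨p, hp, hpN⟩ := big
    exact ⟨p, hp, hpN, 0, by rw [hc]; exact dvd_zero _⟩
  set c := f.eval 0 with hcdef
  have hdiv : ∀ t : ℤ, ∃ s : ℤ, f.eval (c * N * t) = c * (1 + N * s) := by
    intro t
    obtain ⟨s, hs⟩ := Polynomial.sub_dvd_eval_sub (c * N * t) 0 f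
    refine ⟨t * s, ?_⟩
    rw [← hcdef, sub_zero] at hs
    linear_combination hs
  obtain ⟨t, ht⟩ : ∃ t : ℤ, (f.eval (c * N * t)) ^ 2 ≠ c ^ 2 := by
    by_contra hall
    push Not at hall
    have h1 : (f.comp (C (c * N) * X)) ^ 2 - C (c ^ 2) = 0 := by
      apply Polynomial.eq_zero_of_infinite_isRoot
      apply Set.infinite_of_injective_forall_mem (f := fun t : ℤ => t) Function.injective_id
      intro t
      change Polynomial.IsRoot _ t
      rw [Polynomial.IsRoot.def, eval_sub, eval_pow, eval_comp, eval_mul, eval_C, eval_X, eval_C,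
        hall t, sub_self]
    have h2 : (f.comp (C (c * N) * X)).natDegree = f.natDegree := by
      rw [natDegree_comp, natDegree_C_mul_X _ (mul_ne_zero hc hN), mul_one]
    have h3 : ((f.comp (C (c * N) * X)) ^ 2).natDegree = 2 * f.natDegree := by
      rw [natDegree_pow, h2]
    rw [sub_eq_zero] at h1
    rw [h1, natDegree_C] at h3
    omega
  obtain ⟨s, hs⟩ := hdiv t
  have hm : (1 + N * s).natAbs ≠ 1 := by
    intro h1
    apply ht
    rw [hs, mul_pow]
    have : (1 + N * s) ^ 2 = 1 := by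
      rw [← Int.natAbs_sq, h1]
      norm_num
    rw [this, mul_one]
  obtain ⟨p, hp, hpm⟩ := Nat.exists_prime_and_dvd hm
  have hpm' : (p : ℤ) ∣ 1 + N * s := Int.natCast_dvd.2 hpm
  refine ⟨p, hp, fun hpN => ?_, c * N * t, ?_⟩
  · have h1 : (p : ℤ) ∣ 1 := by
      have := dvd_sub hpm' (hpN.mul_right s)
      simpa using this
    have h2 : p ∣ 1 := by exact_mod_cast h1
    exact hp.one_lt.ne' (Nat.dvd_one.1 h2)
  · rw [hs]
    exact hpm'.mul_left c

end Pool.Agent.Y84.ZD
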