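import Pool.Agent.Y84.ZD.C

/-! From almost all prime fields to characteristic zero. -/

set_option autoImplicit false

namespace Pool.Agent.Y84.ZD

open MonoidAlgebra Polynomial

universe u v w

variable {G : Type u} [Group G]

lemma clear {K : Type v} [Field K] [Algebra ℚ K] (θ : K)
    (hθ : Algebra.adjoin ℚ ({θ} : Set K) = ⊤) (z : K) :
    ∃ n : ℤ, n ≠ 0 ∧ ∃ P : ℤ[X], aeval θ P = (n : K) * z := by
  have hz : z ∈ Algebra.adjoin ℚ ({θ} : Set K) := by rw [hθ]; trivial
  rw [Algebra.adjoin_singleton_eq_range_aeval] at hz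
  obtain ⟨r, hr⟩ := hz
  obtain ⟨b, hbM, hb⟩ := IsLocalization.integerNormalization_spec (nonZeroDivisors ℤ) r
  refine ⟨b, nonZeroDivisors.ne_zero hbM,
    IsLocalization.integerNormalization (nonZeroDivisors ℤ) r, ?_⟩
  have h1 : aeval θ ((IsLocalization.integerNormalization (nonZeroDivisors ℤ) r).map
      (algebraMap ℤ ℚ)) = aeval θ (IsLocalization.integerNormalization (nonZeroDivisors ℤ) r) :=
    aeval_map_algebraMap ℚ θ _
  rw [← h1, hb]
  have h2 : aeval θ (b • r) = (b : K) * aeval θ r := by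
    rw [zsmul_eq_mul, map_mul, map_intCast]
  rw [h2]
  congr 1

lemma clear_all {K : Type v} [Field K] [Algebra ℚ K] [CharZero K] (θ : K)
    (hθ : Algebra.adjoin ℚ ({θ} : Set K) = ⊤) (x : MonoidAlgebra K G) :
    ∃ n : ℤ, n ≠ 0 ∧ ∃ X' : MonoidAlgebra ℤ[X] G,
      mapRingHom G ((aeval θ : ℤ[X] →ₐ[ℤ] K) : ℤ[X] →+* K) X' = (n : K) • x := by
  classical
  have key : ∀ T : Finset G, ∃ n : ℤ, n ≠ 0 ∧ ∀ g ∈ T, ∃ P : ℤ[X],
      aeval θ P = (n : K) * x.coeff g := by
    intro T
    induction T using Finset.induction_on with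
    | empty => exact ⟨1, one_ne_zero, by simp⟩
    | insert a T ha ih =>
      obtain ⟨n, hn, h1⟩ := ih
      obtain ⟨m, hm, P, hP⟩ := clear θ hθ (x.coeff a)
      refine ⟨m * n, mul_ne_zero hm hn, fun g hg => ?_⟩
      rcases Finset.mem_insert.1 hg with h2 | h2
      · refine ⟨C n * P, ?_⟩
        rw [map_mul, hP, h2, aeval_C]
        push_cast
        simp only [algebraMap_int_eq, eq_intCast]
        ring
      · obtain ⟨Q, hQ⟩ := h1 g h2
        refine ⟨C m * Q, ?_⟩
        rw [map_mul, hQ, aeval_C]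
        push_cast
        simp only [algebraMap_int_eq, eq_intCast]
        ring
  obtain ⟨n, hn, h1⟩ := key x.coeff.support
  refine ⟨n, hn, exists_lift _ _ (fun g => ?_)⟩
  by_cases h0 : x.coeff g = 0
  · refine ⟨0, ?_⟩
    rw [map_zero]
    change (0 : K) = (n : K) * x.coeff g
    rw [h0, mul_zero]
  · obtain ⟨P, hP⟩ := h1 g (Finsupp.mem_support_iff.2 h0)
    exact ⟨P, hP⟩

theorem number_field {K : Type v} [Field K] [Algebra ℚ K] [FiniteDimensional ℚ K]
    (h : ∀ f : ℤ[X], 0 < f.natDegree → ∀ N : ℤ, N ≠ 0 → ∃ p : ℕ, p.Prime ∧ NZD (ZMod p) G ∧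
      ¬ (p : ℤ) ∣ N ∧ ∃ r : ℤ, (p : ℤ) ∣ f.eval r) : NZD K G := by
  classical
  haveI : CharZero K := charZero_of_injective_algebraMap (algebraMap ℚ K).injective
  obtain ⟨α, hα⟩ := Field.exists_primitive_element ℚ K
  have hαalg : IsAlgebraic ℤ α :=
    (IsFractionRing.isAlgebraic_iff ℤ ℚ K).2 (Algebra.IsAlgebraic.isAlgebraic α)
  obtain ⟨d, hd, hint⟩ := hαalg.exists_integral_multiple
  set θ : K := d • α with hθdef
  have hdK : (d : K) ≠ 0 := Int.cast_ne_zero.2 hd
  have hθ : Algebra.adjoin ℚ ({θ} : Set K) = ⊤ := by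
    have h1 : Algebra.adjoin ℚ ({α} : Set K) = ⊤ := by
      have h2 := IntermediateField.adjoin_simple_toSubalgebra_of_isAlgebraic
        (Algebra.IsAlgebraic.isAlgebraic (R := ℚ) α)
      rw [← h2, hα]
      rfl
    rw [eq_top_iff, ← h1]
    apply Algebra.adjoin_le
    rw [Set.singleton_subset_iff]
    have h3 : α = (algebraMap ℚ K (d : ℚ)⁻¹) * θ := by
      rw [hθdef, zsmul_eq_mul, map_inv₀, map_intCast, inv_mul_cancel_left₀ hdK]
    rw [h3]
    exact Subalgebra.mul_mem _ (Subalgebra.algebraMap_mem _ _)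
      (Algebra.subset_adjoin (Set.mem_singleton _))
  set f := minpoly ℤ θ with hf
  intro x y hxy
  by_contra hc
  push Not at hc
  obtain ⟨g, hg⟩ := exists_coeff hc.1
  obtain ⟨g', hg'⟩ := exists_coeff hc.2
  obtain ⟨n, hn, X', hX⟩ := clear_all θ hθ x
  obtain ⟨n', hn', Y', hY⟩ := clear_all θ hθ y
  have hnK : (n : K) ≠ 0 := Int.cast_ne_zero.2 hn
  have hnK' : (n' : K) ≠ 0 := Int.cast_ne_zero.2 hn'
  have ha : aeval θ (X'.coeff g) = (n : K) * x.coeff g := by
    have h1 := congrArg (fun z : MonoidAlgebra K G => z.coeff g) hX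
    simp only [coeff_mapRingHom] at h1
    exact h1
  have hb : aeval θ (Y'.coeff g') = (n' : K) * y.coeff g' := by
    have h1 := congrArg (fun z : MonoidAlgebra K G => z.coeff g') hY
    simp only [coeff_mapRingHom] at h1
    exact h1
  have hu : aeval θ (X'.coeff g) * aeval θ (Y'.coeff g') ≠ 0 := by
    rw [ha, hb]
    exact mul_ne_zero (mul_ne_zero hnK hg) (mul_ne_zero hnK' hg')
  obtain ⟨m, hm, P, hP⟩ := clear θ hθ (aeval θ (X'.coeff g) * aeval θ (Y'.coeff g'))⁻¹
  have hfd : f ∣ X'.coeff g * Y'.coeff g' * P - C m := by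
    apply minpoly.isIntegrallyClosed_dvd hint
    rw [map_sub, map_mul, map_mul, hP, aeval_C]
    simp only [algebraMap_int_eq, eq_intCast]
    rw [mul_comm ((m : ℤ) : K), ← mul_assoc, mul_inv_cancel₀ hu, one_mul, sub_self]
  have hcoef : ∀ k, f ∣ (X' * Y').coeff k := by
    intro k
    apply minpoly.isIntegrallyClosed_dvd hint
    have h1 : mapRingHom G ((aeval θ : ℤ[X] →ₐ[ℤ] K) : ℤ[X] →+* K) (X' * Y') = 0 := by
      rw [map_mul, hX, hY, smul_mul_assoc, mul_smul_comm, hxy, smul_zero, smul_zero]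
    have h2 := congrArg (fun z : MonoidAlgebra K G => z.coeff k) h1
    simp only [coeff_mapRingHom] at h2
    exact h2
  obtain ⟨p, hp, hNZ, hpN, r, hr⟩ := h f (minpoly.natDegree_pos hint) m hm
  haveI : Fact p.Prime := ⟨hp⟩
  let ev : ℤ[X] →+* ZMod p := (Int.castRingHom (ZMod p)).comp (evalRingHom r)
  have hevf : ∀ Q : ℤ[X], f ∣ Q → ev Q = 0 := by
    rintro Q ⟨Q', rfl⟩
    rw [map_mul]
    have h1 : ev f = 0 := by
      change ((f.eval r : ℤ) : ZMod p) = 0
      exact (ZMod.intCast_zmod_eq_zero_iff_dvd _ p).2 hr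
    rw [h1, zero_mul]
  have h0 : mapRingHom G ev X' * mapRingHom G ev Y' = 0 := by
    rw [← map_mul]
    ext k
    rw [coeff_mapRingHom, hevf _ (hcoef k)]
    rfl
  have hevm : ev (X'.coeff g) * ev (Y'.coeff g') * ev P = ((m : ℤ) : ZMod p) := by
    have h1 := hevf _ hfd
    rw [map_sub, map_mul, map_mul, sub_eq_zero] at h1
    rw [h1]
    change (((C m : ℤ[X]).eval r : ℤ) : ZMod p) = _
    rw [eval_C]
  have hm0 : ((m : ℤ) : ZMod p) ≠ 0 := fun h1 =>
    hpN ((ZMod.intCast_zmod_eq_zero_iff_dvd _ p).1 h1)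
  rcases hNZ _ _ h0 with h1 | h1
  · have h2 : ev (X'.coeff g) = 0 := by rw [← coeff_mapRingHom, h1]; rfl
    rw [h2, zero_mul, zero_mul] at hevm
    exact hm0 hevm.symm
  · have h2 : ev (Y'.coeff g') = 0 := by rw [← coeff_mapRingHom, h1]; rfl
    rw [h2, mul_zero, zero_mul] at hevm
    exact hm0 hevm.symm

theorem many_primes
    (h : ∀ f : ℤ[X], 0 < f.natDegree → ∀ N : ℤ, N ≠ 0 → ∃ p : ℕ, p.Prime ∧ NZD (ZMod p) G ∧
      ¬ (p : ℤ) ∣ N ∧ ∃ r : ℤ, (p : ℤ) ∣ f.eval r) (D : Type v) [CommRing D]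
    [IsDomain D] [CharZero D] : NZD D G := by
  classical
  have hQ : NZD (AlgebraicClosure ℚ) G := by
    intro x y hxy
    let S : Finset (AlgebraicClosure ℚ) :=
      x.coeff.support.image x.coeff ∪ y.coeff.support.image y.coeff
    let K := IntermediateField.adjoin ℚ (S : Set (AlgebraicClosure ℚ))
    haveI : FiniteDimensional ℚ K :=
      IntermediateField.finiteDimensional_adjoin (fun z _ =>
        (AlgebraicClosure.isAlgebraic ℚ).isAlgebraic z |>.isIntegral)
    have hxK : ∀ k, x.coeff k ∈ K := by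
      intro k
      by_cases h0 : x.coeff k = 0
      · rw [h0]; exact K.zero_mem
      · apply IntermediateField.subset_adjoin
        have : x.coeff k ∈ S := by
          simp only [S, Finset.mem_union, Finset.mem_image]
          exact Or.inl ⟨k, Finsupp.mem_support_iff.2 h0, rfl⟩
        exact_mod_cast this
    have hyK : ∀ k, y.coeff k ∈ K := by
      intro k
      by_cases h0 : y.coeff k = 0
      · rw [h0]; exact K.zero_mem
      · apply IntermediateField.subset_adjoin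
        have : y.coeff k ∈ S := by
          simp only [S, Finset.mem_union, Finset.mem_image]
          exact Or.inr ⟨k, Finsupp.mem_support_iff.2 h0, rfl⟩
        exact_mod_cast this
    obtain ⟨x', hx'⟩ := exists_lift (algebraMap K (AlgebraicClosure ℚ)) x
      (fun k => ⟨(⟨_, hxK k⟩ : K), rfl⟩)
    obtain ⟨y', hy'⟩ := exists_lift (algebraMap K (AlgebraicClosure ℚ)) y
      (fun k => ⟨(⟨_, hyK k⟩ : K), rfl⟩)
    have h0 : x' * y' = 0 := by
      apply map_inj (algebraMap K (AlgebraicClosure ℚ)) (algebraMap K _).injective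
      rw [map_mul, hx', hy', hxy, map_zero]
    rcases (number_field h : NZD K G) x' y' h0 with h1 | h1
    · left; rw [← hx', h1, map_zero]
    · right; rw [← hy', h1, map_zero]
  haveI : CharP (AlgebraicClosure ℚ) 0 := CharP.ofCharZero _
  haveI : CharP D 0 := CharP.ofCharZero _
  exact same_char hQ 0

theorem almost_all (h : {p : ℕ | p.Prime ∧ ¬ NZD (ZMod p) G}.Finite) (D : Type v) [CommRing D]
    [IsDomain D] [CharZero D] : NZD D G := by
  classical
  apply many_primes
  intro f hf N hN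
  let B : ℤ := ∏ p ∈ h.toFinset, (p : ℤ)
  have hB : B ≠ 0 := by
    apply Finset.prod_ne_zero_iff.2
    intro p hp
    have h1 := ((Set.Finite.mem_toFinset h).1 hp).1
    exact_mod_cast h1.ne_zero
  obtain ⟨p, hp, hpN, r, hr⟩ := schur f hf (N * B) (mul_ne_zero hN hB)
  refine ⟨p, hp, ?_, fun h1 => hpN (h1.mul_right B), r, hr⟩
  by_contra hc
  apply hpN
  apply Dvd.dvd.mul_left
  exact Finset.dvd_prod_of_mem (fun p : ℕ => (p : ℤ)) ((Set.Finite.mem_toFinset h).2 ⟨hp, hc⟩)

end Pool.Agent.Y84.ZD
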